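import Pool.Agent.Helper54.DI.StmtsB

namespace Pool.Agent.Helper54.DI

open Finset Filter Topology Pool.Agent.Helper54.ETR Pool.Agent.Helper54.Poly

theorem st_Q2 : ST_Q2 := by
  intro f hf
  have hf1 : ContDiffAt ℝ 2 (deriv f) 0 := by
    have h := hf.fderiv_right (m := 2) (by norm_num)
    exact h.clm_apply contDiffAt_const
  have hf2 : ContDiffAt ℝ 1 (deriv (deriv f)) 0 := by
    have h := hf1.fderiv_right (m := 1) (by norm_num)
    exact h.clm_apply contDiffAt_const
  have e2 : iteratedDeriv 2 f = deriv (deriv f) := by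
    rw [iteratedDeriv_succ, iteratedDeriv_one]
  obtain ⟨K, t, ht, hK⟩ := hf2.exists_lipschitzOnWith
  have hd1 : ∀ᶠ x in 𝓝 (0 : ℝ), DifferentiableAt ℝ f x := by
    have h := hf.eventually (by simp)
    filter_upwards [h] with x hx
    exact hx.differentiableAt (by norm_num)
  have hd2 : ∀ᶠ x in 𝓝 (0 : ℝ), DifferentiableAt ℝ (deriv f) x := by
    have h := hf1.eventually (by simp)
    filter_upwards [h] with x hx
    exact hx.differentiableAt (by norm_num)
  have hall : ∀ᶠ x in 𝓝 (0 : ℝ), DifferentiableAt ℝ f x ∧ DifferentiableAt ℝ (deriv f) x ∧ x ∈ t := by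
    filter_upwards [hd1, hd2, ht] with x h1 h2 h3
    exact ⟨h1, h2, h3⟩
  obtain ⟨δ, hδ, hball⟩ := Metric.eventually_nhds_iff.1 hall
  have hgood : ∀ x : ℝ, |x| < δ →
      DifferentiableAt ℝ f x ∧ DifferentiableAt ℝ (deriv f) x ∧ x ∈ t := by
    intro x hx
    apply hball
    simpa [Real.dist_eq] using hx
  have h0t : (0 : ℝ) ∈ t := (hgood 0 (by simpa using hδ)).2.2
  have hlip : ∀ x : ℝ, |x| < δ → |deriv (deriv f) x - deriv (deriv f) 0| ≤ K * |x| := by
    intro x hx
    have h := hK.dist_le_mul x (hgood x hx).2.2 0 h0t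
    simpa [Real.dist_eq] using h
  refine ⟨δ / 4, by positivity, (K : ℝ), K.2, ?_⟩
  intro a b ha hb
  rw [e2]
  set c := deriv (deriv f) 0 with hc
  -- inner bound
  have inner : ∀ s : ℝ, |s| ≤ |a| →
      |deriv f (s + b) - deriv f s - c * b| ≤ K * (|a| + |b|) * |b| := by
    intro s hs
    have hconv : Convex ℝ (Set.Icc (-|b|) |b|) := convex_Icc _ _
    have key := Convex.norm_image_sub_le_of_norm_hasDerivWithin_le
      (f := fun u => deriv f (s + u) - c * u)
      (f' := fun u => deriv (deriv f) (s + u) - c) (C := K * (|a| + |b|))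
      (s := Set.Icc (-|b|) |b|) (x := 0) (y := b) ?_ ?_ hconv
      ⟨by simp, by simp⟩ ⟨neg_abs_le b, le_abs_self b⟩
    · simp only [Real.norm_eq_abs, add_zero, mul_zero, sub_zero] at key
      have e : deriv f (s + b) - c * b - deriv f s = deriv f (s + b) - deriv f s - c * b := by ring
      rw [e] at key
      exact key
    · intro u hu
      have hu' : |u| ≤ |b| := abs_le.2 hu
      have hsu : |s + u| < δ := by
        have := abs_add_le s u
        linarith
      have h1 : HasDerivAt (deriv f) (deriv (deriv f) (s + u)) (s + u) :=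
        (hgood _ hsu).2.1.hasDerivAt
      have h2 : HasDerivAt (fun u => deriv f (s + u)) (deriv (deriv f) (s + u)) u :=
        h1.comp_const_add s u
      have h3 : HasDerivAt (fun u => c * u) c u := by
        simpa using (hasDerivAt_id u).const_mul c
      exact (h2.sub h3).hasDerivWithinAt
    · intro u hu
      have hu' : |u| ≤ |b| := abs_le.2 hu
      have hsu : |s + u| < δ := by
        have := abs_add_le s u
        linarith
      rw [Real.norm_eq_abs]
      refine (hlip _ hsu).trans ?_
      apply mul_le_mul_of_nonneg_left _ K.2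
      have := abs_add_le s u
      linarith
  have hconv : Convex ℝ (Set.Icc (-|a|) |a|) := convex_Icc _ _
  have key := Convex.norm_image_sub_le_of_norm_hasDerivWithin_le
    (f := fun s => f (s + b) - f s - c * b * s)
    (f' := fun s => deriv f (s + b) - deriv f s - c * b) (C := K * (|a| + |b|) * |b|)
    (s := Set.Icc (-|a|) |a|) (x := 0) (y := a) ?_ ?_ hconv
    ⟨by simp, by simp⟩ ⟨neg_abs_le a, le_abs_self a⟩
  · simp only [Real.norm_eq_abs, zero_add, mul_zero, sub_zero] at key
    have e : f (a + b) - f a - c * b * a - (f b - f 0)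
        = f (a + b) - f a - f b + f 0 - c * (a * b) := by ring
    rw [e] at key
    rw [abs_mul]
    calc _ ≤ K * (|a| + |b|) * |b| * |a| := key
      _ = K * (|a| + |b|) * (|a| * |b|) := by ring
  · intro s hs
    have hs' : |s| ≤ |a| := abs_le.2 hs
    have hsb : |s + b| < δ := by
      have := abs_add_le s b
      linarith
    have hs0 : |s| < δ := by linarith
    have h1 : HasDerivAt (fun s => f (s + b)) (deriv f (s + b)) s :=
      ((hgood _ hsb).1.hasDerivAt).comp_add_const s b
    have h2 : HasDerivAt f (deriv f s) s := (hgood _ hs0).1.hasDerivAt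
    have h3 : HasDerivAt (fun s => c * b * s) (c * b) s := by
      simpa using (hasDerivAt_id s).const_mul (c * b)
    exact ((h1.sub h2).sub h3).hasDerivWithinAt
  · intro s hs
    have hs' : |s| ≤ |a| := abs_le.2 hs
    exact inner s hs'

end Pool.Agent.Helper54.DI
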